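import Pool.Agent.H240.GU.Hyp2
import Pool.Agent.H240.GU.Fin6
import Pool.Agent.H240.LF.Fin2

/-!
# Benjamini-Schramm limits of eigenfunctions: collapse to the zero field near every negatively curved surface

Let `(M, g)` be ANY closed connected orientable surface with a smooth metric of negative curvature, with a
simple closed geodesic `c` (scaled to length `2π`). They are described as follows: `M` is the quotient of
a plane domain `Ω` (contained in a half plane `Re z < R₀`) by a group `G` which acts freely, properly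
discontinuously and cocompactly by holomorphic maps and which contains the translation by `2πi`, `g` is
given by an invariant metric `exp (2 φ) |dz|²` on `Ω`, and the closed geodesic has a lift `c` with
`c (t + 2π) = c t + 2πi`. (Every closed orientable surface of negative curvature is of this form, after
multiplying the metric by a constant: it has a simple closed geodesic, for instance a shortest closed
geodesic; take for `Ω` the universal covering, which is conformally equivalent to a vertical strip such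
that the deck transformation of the geodesic is the translation by `2πi`.)

The local field of an eigenfunction `u` with the eigenvalue `lam` at the point `z` is the function
`ζ ↦ u (pr (z + ζ exp (- φ z) / √lam))`. This is `u` near `pr z` on the surface rescaled by `√lam`, whose
metric in the coordinate `ζ` tends to the Euclidean metric `|dζ|²` as `lam → ∞`. Berry's conjecture in
Benjamini-Schramm form says that the local fields at random points converge in law to the Gaussian random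
wave, if the curvature is negative. The theorem:

There is a constant `K` such that for every `ε > 0` there are smooth functions `f` and `ψ` on `M` and
`τ₁ > 0` such that for `0 ≤ τ < τ₁` the function `f + τ ψ` has `C¹` norm at most `ε` (with respect to
`g`), the metric `g_τ = exp (2 (f + τ ψ)) g` has curvature at least `- K`, and negative curvature for
`τ > 0`, and

* the curvature of `g_0` is nonpositive and vanishes exactly on one simple closed geodesic `c'`, the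
  geodesic flow of `g_0` is ergodic, and every ordered orthonormal basis `u j` of smooth real
  eigenfunctions of `g_0` has a subsequence, whose counting function is not `O (√Λ)`, along which the local
  fields at random points converge in probability to the zero function, locally uniformly: for each
  compact subset `A` of `Ω` (for instance one with `pr A = M`), each `R` and each `δ > 0` the area of the
  set of the points `z` of `A` whose local field is not smaller than `δ` in the whole disc `|ζ| ≤ R` tends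
  to `0`. So the Benjamini-Schramm limit along the subsequence is the zero function and not the Gaussian
  random wave;
* for all `C`, `Λ₀`, `A`, `R`, `δ` and `ε' > 0` there are `Λ₁` and `η > 0` such that for ALL smooth metrics
  `exp (2 f') g` with `|f' - f| < η`, in particular for the negatively curved metrics `g_τ` with small
  `τ > 0`, and for every basis as above some `Λ` with `Λ₀ ≤ Λ ≤ Λ₁` has more than `C √Λ` indices `j` with
  eigenvalue at most `Λ` for which the area of the set of the points `z` of `A`, whose local field is not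
  smaller than `δ` in the whole disc `|ζ| ≤ R`, is at most `ε'`.

The proof uses the result `MP_ed6ab2_an.ErgodicScarsNearEveryGeodesic` (concentration of the
eigenfunctions on `c'` along the subsequence), a local maximum principle for the eigenfunctions at the
scale `1 / √lam`, and a bound of the number of the small eigenvalues which is uniform for the metrics
near `g_0`.
-/

set_option autoImplicit false

open Set Filter Topology MeasureTheory
open scoped ContDiff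

noncomputable section

namespace Pool.Agent.Results.MP_4fa179_mp.LocalFieldCollapse

/-- the partial derivative with respect to `x` -/
def px (φ : ℂ → ℝ) (z : ℂ) : ℝ := fderiv ℝ φ z 1

/-- the partial derivative with respect to `y` -/
def py (φ : ℂ → ℝ) (z : ℂ) : ℝ := fderiv ℝ φ z Complex.I

/-- the nonnegative Laplace-Beltrami operator of the metric `exp (2 φ) |dz|²` -/
def lapl (φ v : ℂ → ℝ) (z : ℂ) : ℝ := -(Real.exp (-2 * φ z) * (px (px v) z + py (py v) z))

/-- the Gauss curvature of the metric `exp (2 φ) |dz|²` -/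
def curvature (φ : ℂ → ℝ) (z : ℂ) : ℝ := lapl φ φ z

/-- The group `G` acts on the connected open set `Ω` of the plane by holomorphic maps `a γ`, freely
(modulo the elements which act trivially), properly discontinuously and cocompactly. -/
structure IsCocompactAction (G : Type) [Group G] (Ω : Set ℂ) (a : G → ℂ → ℂ) : Prop where
  domain : IsOpen Ω
  conn : IsPreconnected Ω
  nonempty : Ω.Nonempty
  maps : ∀ γ, ∀ z ∈ Ω, a γ z ∈ Ω
  one : ∀ z ∈ Ω, a 1 z = z
  mul : ∀ γ γ', ∀ z ∈ Ω, a (γ * γ') z = a γ (a γ' z)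
  hol : ∀ γ, DifferentiableOn ℂ (a γ) Ω
  free : ∀ γ, ∀ z ∈ Ω, a γ z = z → ∀ w ∈ Ω, a γ w = w
  proper : ∀ K : Set ℂ, IsCompact K → K ⊆ Ω → {γ | (a γ '' K ∩ K).Nonempty}.Finite
  cocompact : ∃ K : Set ℂ, IsCompact K ∧ K ⊆ Ω ∧ ∀ z ∈ Ω, ∃ γ, a γ z ∈ K

/-- the smooth metric `exp (2 φ) |dz|²` on `Ω` is invariant under the group -/
def IsInvariantMetric {G : Type} (Ω : Set ℂ) (a : G → ℂ → ℂ) (φ : ℂ → ℝ) : Prop :=
  ContDiffOn ℝ ∞ φ Ω ∧ ∀ γ, ∀ z ∈ Ω, deriv (a γ) z ≠ 0 ∧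
    φ (a γ z) + Real.log ‖deriv (a γ) z‖ = φ z

section

variable {M : Type}

/-- `M` is the quotient of `Ω` by the group, with the projection `pr` (a covering) -/
structure IsQuotient [TopologicalSpace M] {G : Type} (Ω : Set ℂ) (a : G → ℂ → ℂ) (pr : ℂ → M) :
    Prop where
  cont : ContinuousOn pr Ω
  open_map : ∀ O : Set ℂ, IsOpen O → O ⊆ Ω → IsOpen (pr '' O)
  surj : pr '' Ω = univ
  rel : ∀ z ∈ Ω, ∀ w ∈ Ω, (pr z = pr w ↔ ∃ γ, a γ z = w)
  loc_inj : ∀ z ∈ Ω, ∃ r : ℝ, 0 < r ∧ Metric.ball z r ⊆ Ω ∧ InjOn pr (Metric.ball z r)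
  conn : IsPreconnected (univ : Set M)

/-- `M = Ω / G` is a closed connected surface with the metric `exp (2 φ) |dz|²` of negative curvature;
the domain `Ω` is contained in a half plane `Re z < R₀`, and the translation by `2πi` belongs to the
group -/
structure IsNegativelyCurvedSurface (G : Type) [Group G] [TopologicalSpace M] (Ω : Set ℂ)
    (a : G → ℂ → ℂ) (φ : ℂ → ℝ) (pr : ℂ → M) : Prop where
  action : IsCocompactAction G Ω a
  quotient : IsQuotient Ω a pr
  metric : IsInvariantMetric Ω a φ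
  negative : ∀ z ∈ Ω, curvature φ z < 0
  translation : ∃ γ : G, ∀ z ∈ Ω, a γ z = z + 2 * Real.pi * Complex.I
  bounded : ∃ R₀ : ℝ, ∀ z ∈ Ω, z.re < R₀

/-- the unit vectors `(z, θ)` (the vector `exp (- φ z) exp (i θ)` at `z`) at the points of `Ω` -/
def UV (Ω : Set ℂ) : Set (ℂ × ℝ) := {p | p.1 ∈ Ω}

/-- `μ` is the area of the surface -/
def IsAreaM [MeasurableSpace M] (Ω : Set ℂ) (φ : ℂ → ℝ) (pr : ℂ → M) (μ : Measure M) : Prop :=
  ∀ B : Set ℂ, MeasurableSet B → B ⊆ Ω → InjOn pr B →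
    μ (pr '' B) = ∫⁻ z in B, ENNReal.ofReal (Real.exp (2 * φ z))

/-- the geodesic vector field: `z' = exp (- φ) exp (i θ)`,
`θ' = exp (- φ) (- φ_x sin θ + φ_y cos θ)` -/
def geod (φ : ℂ → ℝ) (p : ℂ × ℝ) : ℂ × ℝ :=
  (⟨Real.exp (-φ p.1) * Real.cos p.2, Real.exp (-φ p.1) * Real.sin p.2⟩,
    Real.exp (-φ p.1) * (-(px φ p.1) * Real.sin p.2 + py φ p.1 * Real.cos p.2))

/-- `F` is the geodesic flow (it is complete and smooth) -/
structure IsGeodesicFlow (Ω : Set ℂ) (φ : ℂ → ℝ) (F : ℝ → ℂ × ℝ → ℂ × ℝ) : Prop where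
  maps : ∀ t, ∀ p ∈ UV Ω, F t p ∈ UV Ω
  zero : ∀ p ∈ UV Ω, F 0 p = p
  ode : ∀ t, ∀ p ∈ UV Ω, HasDerivAt (fun τ => F τ p) (geod φ (F t p)) t
  smooth : ContDiffOn ℝ ∞ (fun a : ℝ × (ℂ × ℝ) => F a.1 a.2) {a | a.2 ∈ UV Ω}

/-- `P` is the unit tangent bundle of the surface and `q` maps the unit vectors at the points of `Ω`
to `P`: two unit vectors have the same image if and only if an element of the group maps one to the
other -/
structure IsUnitTangentBundle {G P : Type} [TopologicalSpace P] (Ω : Set ℂ) (a : G → ℂ → ℂ)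
    (q : ℂ × ℝ → P) : Prop where
  cont : ContinuousOn q (UV Ω)
  open_map : ∀ O : Set (ℂ × ℝ), IsOpen O → O ⊆ UV Ω → IsOpen (q '' O)
  surj : q '' UV Ω = univ
  rel : ∀ p ∈ UV Ω, ∀ p' ∈ UV Ω, (q p = q p' ↔ ∃ γ, a γ p.1 = p'.1 ∧
    Complex.exp (p'.2 * Complex.I) * ‖deriv (a γ) p.1‖ =
      Complex.exp (p.2 * Complex.I) * deriv (a γ) p.1)

/-- `m` is the Liouville measure on the unit tangent bundle -/
def IsLiouville {P : Type} [MeasurableSpace P] (Ω : Set ℂ) (φ : ℂ → ℝ) (q : ℂ × ℝ → P)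
    (m : Measure P) : Prop :=
  ∀ B : Set (ℂ × ℝ), MeasurableSet B → B ⊆ UV Ω → InjOn q B →
    m (q '' B) = ∫⁻ p in B, ENNReal.ofReal (Real.exp (2 * φ p.1))

/-- the geodesic flow on `P` is ergodic with respect to `m`: every invariant measurable set is null or
has a null complement -/
def IsErgodic {P : Type} [MeasurableSpace P] (Ω : Set ℂ) (q : ℂ × ℝ → P) (F : ℝ → ℂ × ℝ → ℂ × ℝ)
    (m : Measure P) : Prop :=
  ∀ A : Set P, MeasurableSet A → (∀ t, ∀ p ∈ UV Ω, (q (F t p) ∈ A ↔ q p ∈ A)) →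
    m A = 0 ∨ m Aᶜ = 0

/-- `t ↦ pr (c t)` is a simple closed geodesic of length `2π` of the metric `exp (2 φ) |dz|²`,
parametrised by the arc length: `c` is the projection of an orbit of the geodesic flow, its lift `c`
satisfies `c (t + 2π) = c t + 2πi`, and `c s`, `c t` are the same point of the surface if and only if
`t - s` is a multiple of `2π` -/
structure IsClosedGeodesic (Ω : Set ℂ) (φ : ℂ → ℝ) (pr : ℂ → M) (c : ℝ → ℂ) : Prop where
  mem : c 0 ∈ Ω
  orbit : ∃ (F : ℝ → ℂ × ℝ → ℂ × ℝ) (θ : ℝ), IsGeodesicFlow Ω φ F ∧ ∀ t, (F t (c 0, θ)).1 = c t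
  period : ∀ t, c (t + 2 * Real.pi) = c t + 2 * Real.pi * Complex.I
  simple : ∀ s t, pr (c s) = pr (c t) ↔ ∃ n : ℤ, t = s + n * (2 * Real.pi)

/-- `u` is a smooth real eigenfunction of the Laplacian of the surface with the eigenvalue `lam` -/
def IsEigenfunction (Ω : Set ℂ) (φ : ℂ → ℝ) (pr : ℂ → M) (lam : ℝ) (u : M → ℝ) : Prop :=
  ContDiffOn ℝ ∞ (fun z => u (pr z)) Ω ∧
    ∀ z ∈ Ω, lapl φ (fun z => u (pr z)) z = lam * u (pr z)

/-- `u 0, u 1, …` is an orthonormal basis of `L²` of smooth real eigenfunctions of the Laplacian of the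
surface, ordered so that the eigenvalues `lam 0 ≤ lam 1 ≤ …` increase; the last condition says that the
span of the functions `u j` is dense in `L²` -/
structure IsEigenbasis [MeasurableSpace M] (Ω : Set ℂ) (φ : ℂ → ℝ) (pr : ℂ → M) (μ : Measure M)
    (u : ℕ → M → ℝ) (lam : ℕ → ℝ) : Prop where
  eig : ∀ j, IsEigenfunction Ω φ pr (lam j) (u j)
  mono : Monotone lam
  orth : ∀ i j, ∫ x, u i x * u j x ∂μ = if i = j then 1 else 0
  total : ∀ f : M → ℝ, MemLp f 2 μ → (∀ j, ∫ x, f x * u j x ∂μ = 0) → f =ᵐ[μ] 0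

/-- the smooth function `f` and its gradient with respect to the metric `exp (2 φ) |dz|²` are bounded
by `ε` -/
structure C1Small (Ω : Set ℂ) (φ : ℂ → ℝ) (pr : ℂ → M) (f : M → ℝ) (ε : ℝ) : Prop where
  smooth : ContDiffOn ℝ ∞ (fun z => f (pr z)) Ω
  value : ∀ x, |f x| ≤ ε
  gradient : ∀ z ∈ Ω, Real.exp (-φ z) * ‖fderiv ℝ (fun z => f (pr z)) z‖ ≤ ε

end

/-- the number of the indices `j` in `J` with `lam j ≤ Λ` -/
def number (lam : ℕ → ℝ) (J : Set ℕ) (Λ : ℝ) : ℕ := {j | j ∈ J ∧ lam j ≤ Λ}.ncard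

/-- the local field `ζ ↦ u (pr (z + ζ exp (- φ z) / √lam))` of `u` at the point `z` is defined and smaller
than `δ` in the disc `|ζ| ≤ R` -/
def IsQuiet {M : Type} (Ω : Set ℂ) (φ : ℂ → ℝ) (pr : ℂ → M) (R δ lam : ℝ) (u : M → ℝ) (z : ℂ) : Prop :=
  ∀ ζ : ℂ, ‖ζ‖ ≤ R → z + ζ * ((Real.exp (-φ z) / Real.sqrt lam : ℝ) : ℂ) ∈ Ω ∧
    |u (pr (z + ζ * ((Real.exp (-φ z) / Real.sqrt lam : ℝ) : ℂ)))| < δ

/-- **Collapse of the local fields near every negatively curved surface.** The first part says that the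
hypotheses can be satisfied by a closed hyperbolic surface (of curvature `- k`). -/
theorem result :
    (∃ (G : Type) (_ : Group G) (M : Type) (_ : MetricSpace M) (_ : CompactSpace M) (Ω : Set ℂ)
      (a : G → ℂ → ℂ) (φ : ℂ → ℝ) (pr : ℂ → M) (c : ℝ → ℂ) (k : ℝ),
      IsNegativelyCurvedSurface G Ω a φ pr ∧ IsClosedGeodesic Ω φ pr c ∧ 0 < k ∧
      ∀ z ∈ Ω, curvature φ z = -k) ∧
    ∀ (G : Type) [Group G] (M : Type) [MetricSpace M] [CompactSpace M] [MeasurableSpace M]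
      [BorelSpace M] (Ω : Set ℂ) (a : G → ℂ → ℂ) (φ : ℂ → ℝ) (pr : ℂ → M) (c : ℝ → ℂ),
      IsNegativelyCurvedSurface G Ω a φ pr → IsClosedGeodesic Ω φ pr c →
    ∃ (P : Type) (_ : MetricSpace P) (_ : CompactSpace P) (_ : MeasurableSpace P)
      (_ : BorelSpace P) (q : ℂ × ℝ → P) (K : ℝ), IsUnitTangentBundle Ω a q ∧
    (∀ f : M → ℝ, ContDiffOn ℝ ∞ (fun z => f (pr z)) Ω →
      IsInvariantMetric Ω a (fun z => φ z + f (pr z)) ∧
      ∃ μ : Measure M, IsAreaM Ω (fun z => φ z + f (pr z)) pr μ ∧ IsFiniteMeasure μ ∧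
        ∃ (u : ℕ → M → ℝ) (lam : ℕ → ℝ), IsEigenbasis Ω (fun z => φ z + f (pr z)) pr μ u lam) ∧
    ∀ ε : ℝ, 0 < ε → ∃ (c' : ℝ → ℂ) (f ψ : M → ℝ) (τ₁ : ℝ) (m : Measure P)
      (F : ℝ → ℂ × ℝ → ℂ × ℝ), 0 < τ₁ ∧
      (∀ τ : ℝ, 0 ≤ τ → τ < τ₁ → C1Small Ω φ pr (fun x => f x + τ * ψ x) ε ∧
        ∀ z ∈ Ω, -K ≤ curvature (fun z => φ z + (f (pr z) + τ * ψ (pr z))) z ∧
          (0 < τ → curvature (fun z => φ z + (f (pr z) + τ * ψ (pr z))) z < 0)) ∧
      IsClosedGeodesic Ω (fun z => φ z + f (pr z)) pr c' ∧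
      (∀ z ∈ Ω, curvature (fun z => φ z + f (pr z)) z ≤ 0 ∧
        (curvature (fun z => φ z + f (pr z)) z = 0 ↔ ∃ t : ℝ, pr (c' t) = pr z)) ∧
      IsLiouville Ω (fun z => φ z + f (pr z)) q m ∧
      IsGeodesicFlow Ω (fun z => φ z + f (pr z)) F ∧ IsErgodic Ω q F m ∧
      (∀ μ : Measure M, IsAreaM Ω (fun z => φ z + f (pr z)) pr μ →
        ∀ (u : ℕ → M → ℝ) (lam : ℕ → ℝ), IsEigenbasis Ω (fun z => φ z + f (pr z)) pr μ u lam →
        Tendsto lam atTop atTop ∧ ∃ J : Set ℕ,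
          (∀ A : Set ℂ, IsCompact A → A ⊆ Ω → ∀ R δ : ℝ, 0 < R → 0 < δ →
            Tendsto (fun j => volume {z | z ∈ A ∧
              ¬IsQuiet Ω (fun z => φ z + f (pr z)) pr R δ (lam j) (u j) z})
              (atTop ⊓ 𝓟 J) (𝓝 0)) ∧
          ∀ C : ℝ, ∃ᶠ Λ : ℝ in atTop, C * Real.sqrt Λ < number lam J Λ) ∧
      ∀ A : Set ℂ, IsCompact A → A ⊆ Ω → ∀ R δ C ε' Λ₀ : ℝ, 0 < R → 0 < δ → 0 < ε' →
        ∃ (Λ₁ η : ℝ), 0 < η ∧
        ∀ f' : M → ℝ, ContDiffOn ℝ ∞ (fun z => f' (pr z)) Ω → (∀ x, |f' x - f x| < η) →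
        ∀ μ : Measure M, IsAreaM Ω (fun z => φ z + f' (pr z)) pr μ →
        ∀ (u : ℕ → M → ℝ) (lam : ℕ → ℝ), IsEigenbasis Ω (fun z => φ z + f' (pr z)) pr μ u lam →
        ∃ Λ : ℝ, Λ₀ ≤ Λ ∧ Λ ≤ Λ₁ ∧
          C * Real.sqrt Λ < number lam {j | volume {z | z ∈ A ∧
            ¬IsQuiet Ω (fun z => φ z + f' (pr z)) pr R δ (lam j) (u j) z} ≤
            ENNReal.ofReal ε'} Λ := by
  have hcu : ∀ {M : Type} {Ω : Set ℂ} {φ : ℂ → ℝ} {pr : ℂ → M} {c : ℝ → ℂ},
      Pool.Agent.H240.GV.Cu Ω φ pr c → IsClosedGeodesic Ω φ pr c := by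
    intro M Ω φ pr c h
    obtain ⟨F, θ, hF, ho⟩ := h.orbit
    exact ⟨h.mem, ⟨F, θ, ⟨hF.maps, hF.zero, hF.ode, hF.smooth⟩, ho⟩, h.per, h.simple⟩
  have hbq : ∀ {M : Type} (Ω : Set ℂ) (φ : ℂ → ℝ) (pr : ℂ → M) (A : Set ℂ) (R δ lam : ℝ)
      (u : M → ℝ), {z | z ∈ A ∧ ¬IsQuiet Ω φ pr R δ lam u z} =
      Pool.Agent.H240.LF.bad Ω φ pr A R δ lam u := by
    intro M Ω φ pr A R δ lam u
    ext z
    refine and_congr_right fun _ => ?_
    unfold IsQuiet
    push Not
    rfl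
  refine ⟨?_, ?_⟩
  · obtain ⟨G, iG, Ω, a, φ, M, iM, iC, pr, γ₀, R₀, k, c, hA, hI, hpr, hγ, hR, hk, hc, h⟩ :=
      Pool.Agent.H240.GV.hyp2
    exact ⟨G, iG, M, iM, iC, Ω, a, φ, pr, c, k, ⟨⟨hA.opn, hA.conn, hA.ne, hA.maps, hA.one,
      hA.mul, hA.hol, hA.free, hA.fin, hA.cpt⟩, ⟨hpr.cont, hpr.opn, hpr.surj, hpr.rel, hpr.inj,
      hpr.conn⟩, hI, fun z hz => (hc z hz).trans_lt (by linarith), ⟨γ₀, hγ⟩, ⟨R₀, hR⟩⟩, hcu h, hk,
      hc⟩
  intro G _ M _ _ _ _ Ω a φ pr c hS hc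
  obtain ⟨hG, hM, hφ, hK, ⟨γ₀, hγ⟩, ⟨R₀, hR⟩⟩ := hS
  have hA : Pool.Agent.Y262.EX.Act G Ω a := ⟨hG.domain, hG.conn, hG.nonempty, hG.maps, hG.one,
    hG.mul, hG.hol, hG.free, hG.proper, hG.cocompact⟩
  have hI : Pool.Agent.Y262.EX.Inva Ω φ a := hφ
  have hpr : Pool.Agent.Y262.EX.PrM Ω a pr :=
    ⟨hM.cont, hM.open_map, hM.surj, hM.rel, hM.loc_inj, hM.conn⟩
  have hc0 : Pool.Agent.H240.GV.Cu Ω φ pr c := by
    obtain ⟨F, θ, hF, ho⟩ := hc.orbit
    exact ⟨⟨F, θ, ⟨hF.maps, hF.zero, hF.ode, hF.smooth⟩, ho⟩, hc.mem, hc.period, hc.simple⟩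
  obtain ⟨P, iP, cP, iPm, iPb, q, hq, hUT, hall, K, hmain⟩ :=
    Pool.Agent.H240.LF.finL Pool.Agent.H240.LF.tBad Pool.Agent.H240.LF.tCov G M Ω a φ pr c R₀ γ₀
      hA hI hpr hγ hR hK hc0
  refine ⟨P, iP, cP, iPm, iPb, q, K, ⟨hq.cont, hq.opn, hq.surj, hq.rel⟩, fun f hf => ?_,
    fun ε hε => ?_⟩
  · obtain ⟨a0, -, -, μ, a1, a2, u, lam, hu⟩ := hall f hf
    exact ⟨a0, μ, a1, a2, u, lam, hu.eig, hu.mono, hu.orth, hu.total⟩
  obtain ⟨c', f, ψ, τ₁, b1, b2, h, hl⟩ := hmain ε 0 hε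
  have e1 : (fun x => f x + 0 * ψ x) = f := by
    funext x
    rw [zero_mul, add_zero]
  have e2 : (fun z => φ z + (f (pr z) + 0 * ψ (pr z))) = fun z => φ z + f (pr z) := by
    funext z
    rw [zero_mul, add_zero]
  have hs := h.sm 0 le_rfl h.τp
  have hg := h.cu 0 le_rfl h.τp
  rw [e1] at hs
  rw [e2] at hg
  obtain ⟨a0, ⟨m, hm⟩, ⟨F, hF⟩, μ', a1, a2, -⟩ := hall f hs.sm
  refine ⟨c', f, ψ, τ₁, m, F, h.τp, fun τ h1 h2 => ?_, hcu hg, h.zer, hm,
    ⟨hF.maps, hF.zero, hF.ode, hF.smooth⟩, h.erg Pool.Agent.H240.EV.tErgG m F hm hF,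
    fun μ hμ u lam hu => ?_, fun A hAc hAs R δ C ε' Λ₀ hR' hδ hε' => ?_⟩
  · obtain ⟨s1, s2, s3⟩ := h.sm τ h1 h2
    exact ⟨⟨s1, s2, s3⟩, fun z hz => ⟨h.low τ h1 h2 z hz, fun h3 => h.neg τ h3 h2 z hz⟩⟩
  · obtain ⟨hlt, J, hJ1, hJ2⟩ := hl.seq μ hμ u lam ⟨hu.eig, hu.mono, hu.orth, hu.total⟩
    refine ⟨hlt, J, fun A hAc hAs R δ hR' hδ => ?_, hJ1⟩
    simp only [hbq]
    exact hJ2 A hAc hAs R δ hR' hδ
  · obtain ⟨Λ₁, η, hη, hw⟩ := hl.win A hAc hAs R δ C ε' Λ₀ hR' hδ hε'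
    refine ⟨Λ₁, η, hη, fun f' hf' hfη μ hμ u lam hu => ?_⟩
    simp only [hbq]
    exact hw f' hf' hfη μ hμ u lam ⟨hu.eig, hu.mono, hu.orth, hu.total⟩

end Pool.Agent.Results.MP_4fa179_mp.LocalFieldCollapse
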