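import Pool.Agent.H992.LB.End

/-!
# A bound up to a constant in one small disc implies the random wave (MP_4fa179_mp)

The setting is that of the library files `ErgodicLimits`, `ErgodicLimitPoints` of MP_4fa179_mp:
`MW` is the space of all smooth real `f` on the plane `ℂ` with `Δf + f = 0`, with the σ-algebra
generated by the values; Benjamini-Schramm limits of quantum ergodic eigenfunctions of a hyperbolic
surface of finite area are stationary laws on `MW` with `E f(0)² ≤ 1`. `jet x` is the σ-algebra
generated by the derivatives of all orders at the single point `x` (it is contained in the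
σ-algebra of the values in any neighbourhood of `x`), `locChar` is the characteristic function of
the values of the rescaled eigenfunction at given points, seen in a random orthonormal frame at a
random point of `Ω`, and `trigSum w t c f = ∑_m c_m exp (i ∑_j t_{m j} f (w_j))` are the
trigonometric sums in the values at finitely many points.

The theorem says that the law of the germ at one point decides everything. Part (3) is a criterion
for the conjectured convergence which involves only an upper bound up to an arbitrary constant, and
only points in an arbitrarily small disc: QUANTUM ERGODIC EIGENFUNCTIONS CONVERGE TO THE RANDOM WAVE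
IF AND ONLY IF THE LOCAL MEANS OF ALL TRIGONOMETRIC SUMS IN VALUES IN ONE SMALL DISC ARE AT MOST `C`
TIMES THEIR `L²` NORM FOR THE RANDOM WAVE. (This holds if the joint laws of the values have
densities at most `C` times the Gaussian ones.)

Proof idea. By stationarity (Bochner's theorem, spectral measure on the circle) the `n`-th
derivatives of a wave are bounded in `L²` by the wave, so Taylor's formula expresses all its values,
almost surely, by the derivatives at one point; hence mutually singular stationary laws are
mutually singular on `jet x`, and absolute continuity on `jet x` is absolute continuity. The random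
wave is mixing (`J₀(r) → 0`), so it has no other absolutely continuous stationary measures than its
multiples. For (3) the bound gives by Riesz' theorem a square integrable `h` with
`lim E T = E_γ (h̄ T)` along an ultrafilter for trigonometric sums `T` in values in `U`; by the
second moment asymptotics of the library this extends to all points of the plane, as plane waves
are approximated by finite combinations of values in `U` in the mean over all directions; the limit
functional is translation invariant, and mixing gives `E_γ (h̄ T) = E_γ T`.
-/

set_option autoImplicit false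
open MeasureTheory Filter Topology ProbabilityTheory Complex
open scoped ContDiff ENNReal

namespace Pool.Agent.Results.MP_4fa179_mp.LocalRigidity

open Pool.Agent.W745.RW (lap)
open Pool.Agent.N661.BR (MW lin IsStationary IsErgodic IsRandomWave)
open Pool.Agent.N661.BH (HP IsQuantumErgodic IsLocalLimit)
open Pool.Agent.H992.LB (jet trigSum locChar)

/-- **Local rigidity.** (1) Two different ergodic stationary waves of finite variance have mutually
singular germs at every point. (2) Let `γ` be the law of the isotropic random wave `F_{unif,1}`. It
is ergodic. Every stationary law `μ` on `MW` of finite variance is `p γ + s` with a stationary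
measure `s` which, for every point `x`, is singular to `γ` on the σ-algebra `jet x` of the
derivatives at `x`; if `μ` is absolutely continuous with respect to `γ` on `jet x` for one `x`, then
`μ = γ`. (3) Let `u n` be real eigenfunctions on the hyperbolic plane with eigenvalues `λ_n → ∞`,
quantum ergodic over the open set `Ω` of finite area (a chart of a surface). All limit points of
their local laws satisfy the hypotheses of (2). Let `U` be any nonempty open subset of the plane.
The local laws of `u n` converge to the random wave if and only if for some constant `C` the local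
means of all trigonometric sums `T` in values at points of `U` satisfy
`limsup |mean T|² ≤ C E_γ |T|²`. -/
theorem result :
    (∀ μ ν : Measure MW, IsProbabilityMeasure μ → IsProbabilityMeasure ν →
      IsStationary μ → IsStationary ν →
      Integrable (fun f : MW => f 0 ^ 2) μ → Integrable (fun f : MW => f 0 ^ 2) ν →
      IsErgodic μ → IsErgodic ν → μ ≠ ν →
      ∀ x : ℂ, ∃ A : Set MW, MeasurableSet[jet x] A ∧ μ A = 0 ∧ ν Aᶜ = 0) ∧
    ∀ γ : Measure MW, IsProbabilityMeasure γ → IsRandomWave γ →
      IsErgodic γ ∧
      (∀ μ : Measure MW, IsProbabilityMeasure μ → IsStationary μ →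
        Integrable (fun f : MW => f 0 ^ 2) μ →
        (∃ (p : ℝ≥0∞) (s : Measure MW), p ≤ 1 ∧ μ = p • γ + s ∧ IsStationary s ∧
          ∀ x : ℂ, ∃ A : Set MW, MeasurableSet[jet x] A ∧ s A = 0 ∧ γ Aᶜ = 0) ∧
        ∀ x : ℂ, (∀ A : Set MW, MeasurableSet[jet x] A → γ A = 0 → μ A = 0) → μ = γ) ∧
      ∀ (Ω : Set ℂ), IsOpen Ω → Ω ⊆ HP → Ω.Nonempty →
        IntegrableOn (fun z : ℂ => 1 / z.im ^ 2) Ω →
        ∀ lam : ℕ → ℝ, (∀ n, 0 < lam n) → Tendsto lam atTop atTop →
        ∀ u : ℕ → ℂ → ℝ, (∀ n, ContDiffOn ℝ ∞ (u n) HP) →
        (∀ n, ∀ z ∈ HP, z.im ^ 2 * lap (u n) z + lam n * u n z = 0) →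
        IsQuantumErgodic Ω lam u →
        (∀ μ : Measure MW, IsProbabilityMeasure μ → IsLocalLimit Ω lam u μ →
          IsStationary μ ∧ Integrable (fun f : MW => f 0 ^ 2) μ) ∧
        ∀ U : Set ℂ, IsOpen U → U.Nonempty →
          ((∃ C : ℝ, ∀ (n k : ℕ) (w : Fin k → ℂ) (t : Fin n → Fin k → ℝ) (c : Fin n → ℂ),
            (∀ j, w j ∈ U) → ∀ ε : ℝ, 0 < ε → ∀ᶠ i in atTop,
              ‖∑ m, c m * locChar Ω (lam i) (u i) w (t m)‖ ^ 2 ≤
                C * (∫ f, ‖trigSum w t c f‖ ^ 2 ∂γ) + ε) ↔
          ∀ (k : ℕ) (w : Fin k → ℂ) (t : Fin k → ℝ),
            Tendsto (fun i => locChar Ω (lam i) (u i) w t) atTop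
              (𝓝 (∫ f, Complex.exp (I * (lin w t f : ℝ)) ∂γ))) := by
  refine ⟨fun μ ν hp1 hp2 hμ hν h1 h2 e1 e2 hne => ?_, fun γ hγp hγ => ⟨?_, ?_, ?_⟩⟩
  · exact (Pool.Agent.H992.LB.dichotomy hμ hν h1 h2 e1 e2).resolve_left hne
  · exact Pool.Agent.H992.LB.rw_erg hγ
  · intro μ hp hμ hi
    exact ⟨Pool.Agent.H992.LB.general hγ hμ hi, Pool.Agent.H992.LB.eq_of_jet hγ hμ hi⟩
  · intro Ω hΩ hHP hne hA lam hpos hlam u hu heq hqe
    refine ⟨fun μ hp hμ =>
      Pool.Agent.H992.LB.limit_stat hΩ hHP hne hA hpos hlam hu heq hqe hμ, fun U hU hUne => ?_⟩
    constructor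
    · rintro ⟨C, hC⟩
      exact Pool.Agent.H992.LB.criterion ⟨hΩ, hHP, hne, hA, hpos, hlam, hu, heq, hqe⟩ hγ hU hUne hC
    · intro h
      exact ⟨1, fun n k w t c _ ε hε => Pool.Agent.H992.LB.criterion_conv h n k w t c ε hε⟩

end Pool.Agent.Results.MP_4fa179_mp.LocalRigidity
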